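import Pool.Agent.H58.SO.Basic

/-!
# Several orbits of vertices: the properties `NE1` and `NE2` for the blind structure
-/

set_option autoImplicit false

namespace Pool.Agent.H12.SO

open Pool.Agent.H68.BP Pool.Agent.H58.SF Pool.Agent.H53.GC Pool.Agent.H53.NR Pool.Agent.H58.SO

section aux

variable {V X Θ : Type} {M : ℕ} [LinearOrder V] {σ : Sig}

/-- an ascending free pair of two vertices of the same type -/
theorem exists_free (B : Bs V X Θ M) (s : Θ) : ∃ x y : V, x < y ∧ B.c x y = B.fr s s := by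
  obtain ⟨w, hw⟩ := B.surjT s
  obtain ⟨f, hf, hc⟩ := B.univ 2 (fun _ _ => B.fr s s) (by
    intro m t hm ht hfree
    refine ⟨fun _ => w, fun i j hij => ?_⟩
    rw [B.diag, hw])
  exact ⟨f 0, f 1, hf (by decide), hc 0 1 (by decide)⟩

/-- iterates -/
theorem um_iter (hUMC : T_UMC) (B : Bs V X Θ M) (𝔸 : Str σ V) (k : X × Ordering → X × Ordering)
    (hk : UM B B 𝔸 𝔸 k) (j : ℕ) :
    UM B B 𝔸 𝔸 (k^[j]) ∧ ∀ s, tm B B (k^[j]) s = (tm B B k)^[j] s := by
  induction j with
  | zero =>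
    refine ⟨fun s x hx => ⟨x, hx, fun a b => rfl⟩, fun s => ?_⟩
    show B.L (B.fr s s) = s
    exact B.frL s s
  | succ j ih =>
    obtain ⟨h1, h2⟩ := hUMC σ V X Θ V X Θ V X Θ M B B B 𝔸 𝔸 𝔸 k (k^[j]) hk ih.1
    have he : (fun t => k^[j] (k t)) = k^[j+1] := by
      funext t
      exact (Function.iterate_succ_apply k j t).symm
    rw [he] at h1 h2
    refine ⟨h1, fun s => ?_⟩
    rw [h2 s, ih.2, Function.iterate_succ_apply]

/-- a bijection of a finite set has a power which is the identity -/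
theorem exists_iterate {Θ : Type} [Finite Θ] (f : Θ → Θ) (hf : Function.Bijective f) :
    ∃ j : ℕ, ∀ s, f^[j+1] s = s := by
  let e : Equiv.Perm Θ := Equiv.ofBijective f hf
  have h1 : 0 < orderOf e := orderOf_pos e
  refine ⟨orderOf e - 1, fun s => ?_⟩
  rw [Nat.sub_add_cancel h1]
  have h2 : (⇑e)^[orderOf e] = ⇑(e ^ orderOf e) := Equiv.Perm.iterate_eq_pow e _
  have h3 : (⇑e)^[orderOf e] s = s := by
    rw [h2, pow_orderOf_eq_one]
    rfl
  exact h3

end aux

theorem pf_NEE (hUMB : T_UMB) (hUMC : T_UMC) (hCOL : Pool.Agent.H58.SO.T_COL) : T_NEE := by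
  intro σ V X Θ _ M B 𝔸 m D hne hm htm hD hmax hid hm1
  have := B.finT
  -- composition with the two maps
  have hcomp : ∀ m' : X × Ordering → X × Ordering, UM B B (shp B 𝔸 D) (shp B 𝔸 D) m' →
      UM B B 𝔸 𝔸 (fun t => m (m' t)) ∧ ∀ s, tm B B (fun t => m (m' t)) s = tm B B m' s := by
    intro m' hm'
    have h1 := (hUMC σ V X Θ V X Θ V X Θ M B B B 𝔸 (shp B 𝔸 D) (shp B 𝔸 D) id m' hid hm').1
    have h2 := hUMC σ V X Θ V X Θ V X Θ M B B B 𝔸 (shp B 𝔸 D) 𝔸 (fun t => m' (id t)) m h1 hm1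
    refine ⟨h2.1, fun s => ?_⟩
    have h3 := h2.2 s
    rw [htm] at h3
    exact h3
  refine ⟨?_, ?_⟩
  · intro m' hm'
    obtain ⟨h1, h2⟩ := hcomp m' hm'
    have h3 := hne _ h1
    have h4 : tm B B (fun t => m (m' t)) = tm B B m' := funext h2
    rw [h4] at h3
    exact h3
  · intro m' hm' s hs heq
    obtain ⟨hk, hkt⟩ := hcomp m' hm'
    obtain ⟨j, hj⟩ := exists_iterate _ (hne _ hk)
    obtain ⟨hn, hnt⟩ := um_iter hUMC B 𝔸 (fun t => m (m' t)) hk (j + 1)
    -- the composition of the power with `m`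
    obtain ⟨hn', hnt'⟩ := hUMC σ V X Θ V X Θ V X Θ M B B B 𝔸 𝔸 𝔸 m
      ((fun t => m (m' t))^[j+1]) hm hn
    have hid' : ∀ s, tm B B (fun t => (fun t => m (m' t))^[j+1] (m t)) s = s := by
      intro s'
      rw [hnt' s', htm, hnt, hj]
    refine hs (hmax _ hn' hid' ?_ s ?_)
    · intro s' hs'
      obtain ⟨x, hx⟩ := B.surjT s'
      have h1 := (hCOL σ V X Θ M B 𝔸 m hm s' (hD s' hs') x x hx).2
      rw [hx] at h1
      show ((fun t => m (m' t))^[j+1] (m (B.fr s' s', Ordering.lt))).2 = Ordering.eq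
      rw [← h1, B.ct_self, hx]
      have h2 := (hUMB σ V X Θ V X Θ M B B 𝔸 𝔸 _ hn').2 s'
      exact congrArg Prod.snd h2
    · -- the power identifies `s`
      obtain ⟨x, hx⟩ := B.surjT s
      have h1 := (hCOL σ V X Θ M B (shp B 𝔸 D) m' hm' s heq x x hx).2
      rw [hx] at h1
      have h2 : (((fun t => m (m' t))^[j+1]) (B.fr s s, Ordering.lt)).2 = Ordering.eq := by
        rw [Function.iterate_succ_apply]
        show ((fun t => m (m' t))^[j] (m (m' (B.fr s s, Ordering.lt)))).2 = Ordering.eq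
        rw [← h1, B.ct_self, hx]
        have h3 := congrArg Prod.snd ((hUMB σ V X Θ V X Θ M B B 𝔸 𝔸 _ hn).2 s)
        rw [Function.iterate_succ_apply] at h3
        exact h3
      -- the value of `m` at an ascending free pair
      obtain ⟨u, v, huv, hc⟩ := exists_free B s
      have hu : B.vt u = s := by rw [← B.left u v, hc, B.frL]
      have hv : B.vt v = s := by rw [← B.right u v, hc, B.frR]
      have hM := B.four
      obtain ⟨y, -, hy⟩ := hm none (fun a : Fin M => if a = ⟨0, by omega⟩ then u else v) trivial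
      have hct : B.ct u v = (B.fr s s, Ordering.lt) := by
        refine Prod.ext hc ?_
        exact (B.ct_snd_lt u v).2 huv
      obtain ⟨y₀, y₁, hy1⟩ : ∃ y₀ y₁ : V, B.ct y₀ y₁ = m (B.fr s s, Ordering.lt) := by
        refine ⟨y (⟨0, by omega⟩ : Fin M), y (⟨1, by omega⟩ : Fin M), ?_⟩
        rw [← hct]
        have h4 := hy (⟨0, by omega⟩ : Fin M) (⟨1, by omega⟩ : Fin M)
        have h5 : (⟨1, by omega⟩ : Fin M) ≠ (⟨0, by omega⟩ : Fin M) := by
          intro h
          exact absurd (congrArg Fin.val h) (by norm_num)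
        rw [if_pos rfl, if_neg h5] at h4
        exact h4
      have hb := (hUMB σ V X Θ V X Θ M B B 𝔸 𝔸 m hm).1 u v
      rw [hct, ← hy1, hu, hv, htm] at hb
      simp only [Bs.ct_fst, B.left, B.right] at hb
      obtain ⟨hb1, hb2⟩ := hb
      show (((fun t => m (m' t))^[j+1]) (m (B.fr s s, Ordering.lt))).2 = Ordering.eq
      have hC := hCOL σ V X Θ M B 𝔸 _ hn s h2
      rw [← hy1, (hC y₀ y₁ hb1).1, hb2]
      have h6 := (hC x x hx).1
      rw [hx] at h6
      rw [← h6, B.ct_self, hx]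
      exact congrArg Prod.snd ((hUMB σ V X Θ V X Θ M B B 𝔸 𝔸 _ hn).2 s)

end Pool.Agent.H12.SO
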